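import Mathlib

set_option autoImplicit false

namespace Pool.Agent.H.MP_127c5d_co
open Set Metric MeasureTheory Filter Topology

abbrev E (n : ℕ) := EuclideanSpace ℝ (Fin n)

def IsBody {n : ℕ} (A : Set (E n)) : Prop :=
  IsCompact A ∧ (interior A).Nonempty ∧ A = closure (interior A)

def Patch {n : ℕ} (A : Set (E n)) (P : Set (Set (E n))) : Prop :=
  (∀ T ∈ P, ∃ g : E n ≃ᵢ E n, T = g '' A) ∧
    P.Pairwise fun T T' => Disjoint (interior T) (interior T')

def corona {n : ℕ} (P : Set (Set (E n))) (A : Set (E n)) (k : ℕ) : Set (Set (E n)) :=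
  {Q | ∃ m ≤ k, ∃ c : ℕ → Set (E n), c 0 = A ∧ c m = Q ∧ (∀ i ≤ m, c i ∈ P) ∧
    ∀ i < m, (c i ∩ c (i + 1)).Nonempty}

variable {n : ℕ}

lemma im_int (g : E n ≃ᵢ E n) (U) : interior (g '' U) = g '' interior U :=
  (g.toHomeomorph.image_interior U).symm

lemma im_cl (g : E n ≃ᵢ E n) (U) : closure (g '' U) = g '' closure U :=
  (g.toHomeomorph.image_closure U).symm

lemma locfin {A : Set (E n)} {P} (hA : IsBody A) (hP : Patch A P) (x : E n) (R : ℝ) :
    {T ∈ P | (T ∩ ball x R).Nonempty}.Finite := by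
  obtain ⟨a, ha⟩ := hA.2.1
  obtain ⟨ρ, hρ, h1⟩ := Metric.isOpen_iff.1 isOpen_interior a ha
  obtain ⟨D, h2⟩ := hA.1.isBounded.subset_closedBall a
  choose! g hg using hP.1
  have hb : ∀ T ∈ P, ball (g T a) ρ ⊆ interior T := fun T hT => by
    rw [hg T hT, im_int, ← hg T hT, ← (g T).image_ball]; exact image_mono h1
  rw [← Set.finite_coe_iff, ← Set.finite_univ_iff]
  refine (Measure.finite_const_le_meas_of_disjoint_iUnion volume (measure_ball_pos volume (0 : E n) hρ)
    (As := fun T : {T ∈ P | (T ∩ ball x R).Nonempty} => ball (g T a) ρ)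
    (fun _ => measurableSet_ball) (fun T T' h => (hP.2 T.2.1 T'.2.1 (Subtype.coe_ne_coe.2 h)).mono
      (hb _ T.2.1) (hb _ T'.2.1)) ((measure_mono (iUnion_subset fun T => ?_)).trans_lt
      (measure_ball_lt_top (x := x) (r := R + D + ρ))).ne).subset fun T _ =>
      (Measure.addHaar_ball_center _ _ _).ge
  obtain ⟨z, z1, z2⟩ := T.2.2
  rw [hg _ T.2.1] at z1
  obtain ⟨w, w1, rfl⟩ := z1
  have := (g T).dist_eq w a
  have := mem_closedBall.1 (h2 w1)
  have := mem_ball.1 z2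
  have := dist_triangle_left (g T a) x (g T w)
  exact ball_subset_ball' (by linarith)

lemma inb {c c' z : E (n + 2)} {r r' R : ℝ} (h : Disjoint (closedBall c' r') (ball c R \ closedBall c r))
    (hR : r < R) (z1 : z ∈ closedBall c' r') (z2 : z ∈ closedBall c r) : dist c' c + r' ≤ r := by
  by_contra! hc
  have r0 : 0 ≤ r' := dist_nonneg.trans z1
  obtain ⟨u, u1, u2⟩ : ∃ u : E (n + 2), ‖u‖ = 1 ∧ c' = c + dist c' c • u := by
    by_cases q : c' = c
    · obtain ⟨u, hu⟩ := exists_norm_eq (E (n + 2)) zero_le_one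
      exact ⟨u, hu, by simp [q]⟩
    · have := (dist_pos.2 q).ne'
      refine ⟨(dist c' c)⁻¹ • (c' - c), ?_, by simp [smul_smul, this]⟩
      rw [norm_smul, norm_inv, Real.norm_of_nonneg dist_nonneg, ← dist_eq_norm, inv_mul_cancel₀ this]
  have w1 : c' + r' • u ∈ closedBall c' r' := by simp [norm_smul, u1, r0, abs_of_nonneg]
  have w2 : dist (c' + r' • u) c = dist c' c + r' := by
    nth_rewrite 1 [u2]
    rw [add_assoc, ← add_smul, dist_self_add_left, norm_smul, u1, mul_one, Real.norm_of_nonneg (by positivity)]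
  obtain ⟨m, m1, m2⟩ := exists_between (lt_min hR hc)
  obtain ⟨w, a, b⟩ := (convex_closedBall c' r').isPreconnected.intermediate_value z1 w1
    (f := fun x => dist x c) (by fun_prop) (show m ∈ _ from ⟨z2.trans m1.le, by
      simp only [w2]; exact (m2.trans_le (min_le_right ..)).le⟩)
  refine disjoint_left.1 h a ⟨?_, ?_⟩ <;> simp only [mem_ball, mem_closedBall, b, not_le]
  exacts [m2.trans_le (min_le_left ..), m1]

lemma ball_eq {c c' z w : E n} {r r' : ℝ} (h : dist c' c + r' ≤ r) (hz : z ∈ sphere c r)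
    (hw : w ∈ sphere c r) (z1 : z ∈ closedBall c' r') (w1 : w ∈ closedBall c' r') (ne : z ≠ w) :
    c' = c ∧ r' = r := by
  have k : ∀ z ∈ sphere c r, z ∈ closedBall c' r' → SameRay ℝ (z - c) (c' - c) := fun z a b => by
    have : SameRay ℝ (z - c') (c' - c) := sameRay_iff_norm_add.2 (le_antisymm (norm_add_le ..) (by
      simp only [mem_sphere, mem_closedBall, dist_eq_norm, sub_add_sub_cancel] at *; linarith))
    simpa using this.add_left SameRay.rfl
  have : c' = c := by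
    by_contra q
    exact ne (sub_left_injective (norm_injOn_ray_right (sub_ne_zero.2 q) (k z hz z1) (k w hw w1)
      (by rw [mem_sphere_iff_norm.1 hz, mem_sphere_iff_norm.1 hw])))
  subst this
  simp only [mem_sphere, mem_closedBall, dist_self] at *
  exact ⟨trivial, by linarith⟩

def Feat (Φ : Set (E n × ℝ)) (T : Set (E n)) : Prop :=
  IsClosed T ∧ Φ.Finite ∧ (∀ f ∈ Φ, closedBall f.1 f.2 ⊆ T) ∧ ∀ z ∈ T, (∃ f ∈ Φ, z ∈ closedBall f.1 f.2) ∨
    ∀ ε > 0, ∃ a ∈ T, ∃ b ∈ T, a ≠ b ∧ dist a z < ε ∧ dist b z < ε ∧ z = midpoint ℝ a b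

lemma Feat.image {Φ T} (h : Feat Φ T) (g : E n ≃ᵢ E n) : Feat (Prod.map g id '' Φ) (g '' T) := by
  obtain ⟨h1, h2, h3, h4⟩ := h
  refine ⟨g.toHomeomorph.isClosed_image.2 h1, h2.image _, forall_mem_image.2 fun f hf =>
    (g.image_closedBall ..).symm.subset.trans (image_mono (h3 f hf)), forall_mem_image.2 fun z hz => ?_⟩
  rcases h4 z hz with ⟨f, a, b⟩ | h
  · exact .inl ⟨_, mem_image_of_mem _ a, by simpa [g.dist_eq] using b⟩
  · refine .inr fun ε e => ?_
    obtain ⟨a, ha, b, hb, c1, c2, c3, c4⟩ := h ε e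
    exact ⟨_, mem_image_of_mem _ ha, _, mem_image_of_mem _ hb, g.injective.ne c1, by rwa [g.dist_eq],
      by rwa [g.dist_eq], by rw [← g.map_midpoint, ← c4]⟩

lemma dirn {T : Set (E n)} {z u : E n} (hu : u ≠ 0) (h : ∀ᶠ t in 𝓝[≠] (0 : ℝ), z + t • u ∈ T) :
    ∀ ε > 0, ∃ a ∈ T, ∃ b ∈ T, a ≠ b ∧ dist a z < ε ∧ dist b z < ε ∧ z = midpoint ℝ a b := by
  intro ε e
  have h' : ∀ᶠ t in 𝓝[≠] (0 : ℝ), z + (-t) • u ∈ T := by
    have : Tendsto (fun t : ℝ => -t) (𝓝[≠] 0) (𝓝[≠] 0) := by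
      simpa using (continuous_neg (G := ℝ)).continuousWithinAt.tendsto_nhdsWithin (s := {0}ᶜ) (x := 0)
        (t := {0}ᶜ) (fun t ht => by simpa using ht)
    exact this.eventually h
  have h2 : ∀ᶠ t in 𝓝[≠] (0 : ℝ), ‖t • u‖ < ε := nhdsWithin_le_nhds
    ((by fun_prop : Continuous fun t : ℝ => ‖t • u‖).continuousAt.eventually_lt continuousAt_const
      (by simpa using e))
  obtain ⟨t, ⟨⟨a, b⟩, c⟩, d⟩ := (((h.and h').and h2).and self_mem_nhdsWithin).exists
  refine ⟨_, a, _, b, fun q => ?_, by simpa using c, by simpa using c, ?_⟩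
  · have := smul_left_injective ℝ hu (add_left_cancel q)
    exact d (show t = 0 by linarith)
  · simp [neg_smul, ← sub_eq_add_neg, midpoint_add_sub]

lemma cav {P : Set (Set (E (n + 2)))} (Φ : Set (E (n + 2)) → Set (E (n + 2) × ℝ)) {c : E (n + 2)}
    {r R : ℝ} (hr : 0 < r) (hR : r < R) (fin : {T ∈ P | (T ∩ ball c r).Nonempty}.Finite)
    (cov : ⋃₀ P = univ) (h : ∀ T ∈ P, (T ∩ ball c r).Nonempty →
      Feat (Φ T) T ∧ Disjoint T (ball c R \ closedBall c r)) :
    ∃ T ∈ P, (T ∩ ball c r).Nonempty ∧ (c, r) ∈ Φ T := by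
  by_contra! hc
  have inf : (sphere c r).Infinite := by
    refine (isPreconnected_sphere ?_ c r).infinite_of_nontrivial ?_
    · rw [← Module.finrank_eq_rank]; simp only [finrank_euclideanSpace, Fintype.card_fin]
      exact_mod_cast by omega
    · obtain ⟨u, hu⟩ := exists_norm_eq (E (n + 2)) hr.le
      refine ⟨c + u, by simpa, c - u, by simpa, fun q => ?_⟩
      have : u = 0 := by
        have : (2 : ℝ) • u = 0 := by linear_combination (norm := module) q
        simpa using this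
      simp [this] at hu; exact hr.ne hu
  refine inf ((fin.biUnion fun T hT => (h T hT.1 hT.2).1.2.1.biUnion fun f hf =>
    (?_ : (sphere c r ∩ closedBall f.1 f.2).Subsingleton).finite).subset fun z hz => ?_)
  · intro z hz w hw
    by_contra q
    obtain ⟨a, b⟩ := ball_eq (inb ((h T hT.1 hT.2).2.mono_left ((h T hT.1 hT.2).1.2.2.1 f hf)) hR hz.2
      (sphere_subset_closedBall hz.1)) hz.1 hw.1 hz.2 hw.2 q
    exact hc T hT.1 hT.2 (by rwa [← a, ← b])
  · have : z ∈ ⋃ T ∈ {T ∈ P | (T ∩ ball c r).Nonempty}, T := by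
      rw [← (fin.isClosed_biUnion fun T hT => (h T hT.1 hT.2).1.1).closure_eq]
      refine closure_mono (fun x hx => ?_) ((closure_ball c hr.ne').symm ▸ sphere_subset_closedBall hz)
      obtain ⟨T, a, b⟩ := cov ▸ mem_univ x
      exact mem_biUnion ⟨a, x, b, hx⟩ b
    obtain ⟨T, hT, hz'⟩ := mem_iUnion₂.1 this
    obtain ⟨⟨-, -, -, h1⟩, h2⟩ := h T hT.1 hT.2
    rcases h1 z hz' with ⟨f, a, b⟩ | h1
    · exact mem_biUnion hT (mem_biUnion a ⟨hz, b⟩)
    obtain ⟨a, ha, b, hb, c1, c2, c3, c4⟩ := h1 (R - r) (by linarith)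
    have k : ∀ a ∈ T, dist a z < R - r → a ∈ closedBall c r := fun a ha e => by
      by_contra q
      have := dist_triangle a z c
      exact disjoint_left.1 h2 ha ⟨by rw [mem_sphere.1 hz] at this; rw [mem_ball]; linarith, q⟩
    have := openSegment_subset_ball_of_ne (k a ha c2) (k b hb c3) c1 (midpoint_mem_openSegment a b)
    rw [← c4, mem_ball, mem_sphere.1 hz] at this
    exact (lt_irrefl _ this).elim

lemma transl (g : E n ≃ᵢ E n) (a v : E n) (δ : Fin n → ℝ) (hδ : ∀ j, δ j ≠ 0) (h0 : g a = a + v)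
    (hj : ∀ j, g (a + EuclideanSpace.single j (δ j)) = a + EuclideanSpace.single j (δ j) + v) (x : E n) :
    g x = x + v := by
  have e0 : ‖g x - v - a‖ = ‖x - a‖ := by
    rw [← dist_eq_norm x, ← g.dist_eq, h0, dist_eq_norm]; congr 1; abel
  have : g x - v - a = x - a := by
    ext j
    have e : ‖g x - v - a - EuclideanSpace.single j (δ j)‖ = ‖x - a - EuclideanSpace.single j (δ j)‖ := by
      rw [sub_sub x, ← dist_eq_norm x, ← g.dist_eq, hj, dist_eq_norm]; congr 1; abel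
    have := congrArg (· ^ 2) e
    simp only [norm_sub_sq_real (_ - a), e0, EuclideanSpace.inner_single_right, conj_trivial] at this
    exact mul_left_cancel₀ (hδ j) (by linarith)
  linear_combination (norm := abel) this

lemma shift_eq {A : Set (E n)} (hA : IsCompact A) (hn : A.Nonempty) {v : E n}
    (h : ∀ x ∈ A, x + v ∈ A) : v = 0 := by
  obtain ⟨x, a, b⟩ := hA.exists_isMaxOn hn (f := fun x => inner ℝ x v) (by fun_prop)
  have := b (h x a)
  simp only [mem_setOf, inner_add_left, add_le_iff_nonpos_right] at this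
  exact real_inner_self_nonpos.1 this

lemma cor {P : Set (Set (E n))} {A : Set (E n)} {D : ℝ} {k : ℕ} (fin : P.Finite)
    (cl : ∀ T ∈ P, IsClosed T) (hD : ∀ T ∈ P, ∀ x ∈ T, ∀ y ∈ T, ∀ i, |x i - y i| ≤ D) (D0 : 0 ≤ D)
    (hA : ∀ x ∈ A, ∀ i, |x i| ≤ D) (cov : ∀ x : E n, (∀ i, |x i| < (k + 1) * D + 1) → x ∈ ⋃₀ P)
    (j : ℕ) (hj : j ≤ k) : ⋃₀ corona P A j ⊆ interior (⋃₀ corona P A (j + 1)) := by
  rintro x ⟨Q, ⟨m, hm, c, c0, rfl, c1, c2⟩, hx⟩
  have bd : ∀ l ≤ m, ∀ x ∈ c l, ∀ i, |x i| ≤ (l + 1) * D := fun l => by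
    induction l with
    | zero => simpa [c0] using hA
    | succ l ih =>
      intro hl x hx i
      obtain ⟨y, y1, y2⟩ := c2 l hl
      have := ih (by omega) y y1 i
      have := hD _ (c1 _ hl) x hx y y2 i
      have := abs_sub_abs_le_abs_sub (x i) (y i)
      push_cast; linarith
  have o1 : IsOpen {y : E n | ∀ i, |y i| < (k + 1) * D + 1} := by
    rw [setOf_forall]; exact isOpen_iInter_of_finite fun i => isOpen_lt (by fun_prop) (by fun_prop)
  have o2 : IsClosed (⋃ T ∈ {T ∈ P | x ∉ T}, T) :=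
    (fin.subset (sep_subset ..)).isClosed_biUnion fun T hT => cl T hT.1
  refine interior_maximal ?_ (o1.sdiff o2) ⟨fun i => ?_, by simp⟩
  · rintro y ⟨y1, y2⟩
    obtain ⟨T, a, b⟩ := cov y y1
    have : x ∈ T := by_contra fun q => y2 (mem_biUnion ⟨a, q⟩ b)
    refine ⟨T, ⟨m + 1, by omega, fun i => if i ≤ m then c i else T, by simp [c0], by simp,
      fun i _ => ?_, fun i hi => ?_⟩, b⟩
    · by_cases q : i ≤ m <;> simp [q, c1, a]
    · by_cases q : i = m
      · exact ⟨x, by simp [q, hx, this]⟩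
      · simpa [show i ≤ m by omega, show i + 1 ≤ m by omega] using c2 i (by omega)
  · have : ((m : ℝ) + 1) * D ≤ (k + 1) * D := by gcongr; omega
    linarith [bd m le_rfl x hx i]

end Pool.Agent.H.MP_127c5d_co
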