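import Pool.Agent.H.MP_127c5d_co.A

set_option autoImplicit false

namespace Pool.Agent.H.MP_127c5d_co
open Set Metric MeasureTheory Filter Topology

abbrev Z (n : ℕ) := Fin (n + 2) → ℤ
abbrev K (n : ℕ) := Fin 2 × Option (Fin (n + 2))

variable {n : ℕ}

noncomputable def dl (j : Fin (n + 2)) : ℝ := (1 + (j : ℝ) / (n + 2)) / 16

def emb (y : Z n) : E (n + 2) := WithLp.toLp 2 fun i => (y i : ℝ)

noncomputable def cen (y : Z n) (κ : K n) : E (n + 2) :=
  WithLp.toLp 2 fun i => y i + 1 / 4 + (κ.1 : ℝ) / 2 + if κ.2 = some i then dl i else 0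

noncomputable def rad (y : Z n) (κ : K n) : ℝ :=
  if κ.2 = none then (9 + 2 * ((y 1 % 4 : ℤ) : ℝ) + κ.1) / 640 else 8 / 640

def cube (y : Z n) : Set (E (n + 2)) := {x | ∀ i, y i < x i ∧ x i < y i + 1}

def ccube (y : Z n) : Set (E (n + 2)) := {x | ∀ i, y i ≤ x i ∧ x i ≤ y i + 1}

def ed (d : Fin 2) : Z n := fun i => if i.val = d.val then 1 else 0

def O (y : Z n) : Set (E (n + 2)) := (cube y \ ⋃ κ, closedBall (cen y κ) (rad y κ)) ∪
  ⋃ κ : K n, ball (cen (y + ed κ.1) κ) (rad (y + ed κ.1) κ)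

def U (Y : Set (Z n)) : Set (E (n + 2)) := ⋃ y ∈ Y, O y

lemma dl_bd (j : Fin (n + 2)) : 1 / 16 ≤ dl j ∧ dl j < 1 / 8 := by
  have h : (j : ℝ) < n + 2 := by exact_mod_cast j.2
  have := (div_lt_one (by positivity : (0 : ℝ) < n + 2)).2 h
  have : 0 ≤ (j : ℝ) / (n + 2) := by positivity
  unfold dl; constructor <;> linarith

lemma dl_inj {i j : Fin (n + 2)} (h : dl i = dl j) : i = j := by
  unfold dl at h
  field_simp at h
  exact Fin.ext (by exact_mod_cast add_left_cancel h)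

lemma f2 (d : Fin 2) : (d : ℝ) = 0 ∨ (d : ℝ) = 1 := by fin_cases d <;> simp

lemma rad_bd (y : Z n) (κ : K n) : 8 / 640 ≤ rad y κ ∧ rad y κ ≤ 16 / 640 := by
  have a : (0 : ℝ) ≤ ((y 1 % 4 : ℤ) : ℝ) := by exact_mod_cast (by omega : 0 ≤ y 1 % 4)
  have b : ((y 1 % 4 : ℤ) : ℝ) ≤ 3 := by exact_mod_cast (by omega : y 1 % 4 ≤ 3)
  unfold rad; split_ifs <;> rcases f2 κ.1 with h | h <;> constructor <;> linarith

lemma rad_pos (y : Z n) (κ : K n) : 0 < rad y κ := by linarith [(rad_bd y κ).1]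

lemma rad_inj {y y' : Z n} {κ : K n} {d} (h : rad y' κ = rad y (d, none)) :
    κ = (d, none) ∧ (y - y') 1 % 4 = 0 := by
  obtain ⟨d', o⟩ := κ
  unfold rad at h
  have a : (0 : ℝ) ≤ ((y 1 % 4 : ℤ) : ℝ) := by exact_mod_cast (by omega : 0 ≤ y 1 % 4)
  rcases o with _ | j
  · have : 2 * (y' 1 % 4) + (d' : ℕ) = 2 * (y 1 % 4) + (d : ℕ) := by
      simp only [if_true] at h; exact_mod_cast (by push_cast at h ⊢; linarith : ((_ : ℤ) : ℝ) = ((_ : ℤ) : ℝ))
    simp only [Prod.mk.injEq, and_true, Pi.sub_apply]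
    omega
  · simp only [reduceCtorEq, if_true, if_false] at h
    rcases f2 d with h | h <;> linarith

lemma cd (x y : E (n + 2)) (i) : |x i - y i| ≤ dist x y := PiLp.dist_apply_le x y i

lemma ite_bd (p : Prop) [Decidable p] (j : Fin (n + 2)) :
    0 ≤ (if p then dl j else 0) ∧ (if p then dl j else 0) < 1 / 8 := by
  have := dl_bd j
  split_ifs <;> constructor <;> linarith

lemma sep1 (y : Z n) {κ κ' : K n} (h : κ.1 ≠ κ'.1) : 3 / 8 ≤ dist (cen y κ) (cen y κ') := by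
  refine le_trans ?_ (cd _ _ 0)
  have := ite_bd (κ.2 = some 0) (0 : Fin (n + 2))
  have := ite_bd (κ'.2 = some 0) (0 : Fin (n + 2))
  have h' : (κ.1 : ℝ) ≠ κ'.1 := fun q => h (Fin.ext (by exact_mod_cast q))
  simp only [cen, le_abs]
  rcases f2 κ.1 with a | a <;> rcases f2 κ'.1 with b | b
  exacts [(h' (a.trans b.symm)).elim, .inr (by linarith), .inl (by linarith), (h' (a.trans b.symm)).elim]

lemma sep (y : Z n) {κ κ' : K n} (h : κ ≠ κ') : 1 / 16 ≤ dist (cen y κ) (cen y κ') := by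
  by_cases q : κ.1 = κ'.1
  swap
  · linarith [sep1 y q]
  have k : ∀ κ κ' : K n, κ.1 = κ'.1 → ∀ j, κ.2 = some j → κ'.2 ≠ some j →
      1 / 16 ≤ dist (cen y κ) (cen y κ') := fun κ κ' q j a b => by
    refine le_trans ?_ (cd _ _ j)
    simp only [cen, q, a, b, le_abs, if_true, if_false]
    exact .inl (by linarith [dl_bd j])
  have h2 : κ.2 ≠ κ'.2 := fun e => h (Prod.ext q e)
  rcases e : κ.2 with _ | j
  · obtain ⟨j, e'⟩ := Option.ne_none_iff_exists'.1 (e ▸ h2.symm)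
    rw [dist_comm]; exact k _ _ q.symm j e' (by simp [e])
  · exact k _ _ q j e (e ▸ h2.symm)

lemma inc (y : Z n) (κ : K n) : ball (cen y κ) (1 / 8) ⊆ cube y := fun x hx i => by
  have := abs_lt.1 ((cd x _ i).trans_lt hx)
  have := ite_bd (κ.2 = some i) i
  simp only [cen] at *
  rcases f2 κ.1 with a | a <;> constructor <;> linarith

lemma inc' (y : Z n) (κ : K n) : ball (cen y κ) (rad y κ) ⊆ cube y :=
  (ball_subset_ball (by linarith [rad_bd y κ])).trans (inc y κ)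

lemma shell (y : Z n) (κ : K n) :
    ball (cen y κ) (3 / 80) \ closedBall (cen y κ) (rad y κ) ⊆ O y := fun x ⟨a, b⟩ => by
  refine .inl ⟨inc y κ (ball_subset_ball (by norm_num) a), fun h => ?_⟩
  obtain ⟨κ', h⟩ := mem_iUnion.1 h
  have := sep y (show κ ≠ κ' from fun q => b (q ▸ h))
  have := dist_triangle_left (cen y κ) (cen y κ') x
  rw [mem_ball] at a; rw [mem_closedBall] at h
  linarith [rad_bd y κ']

lemma cube_open (y : Z n) : IsOpen (cube y) := by
  unfold cube; rw [setOf_forall]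
  refine isOpen_iInter_of_finite fun i => ?_
  rw [setOf_and]
  exact (isOpen_lt (by fun_prop) (by fun_prop)).inter (isOpen_lt (by fun_prop) (by fun_prop))

lemma ccube_closed (y : Z n) : IsClosed (ccube y) := by
  unfold ccube; rw [setOf_forall]
  refine isClosed_iInter fun i => ?_
  rw [setOf_and]
  exact (isClosed_le (by fun_prop) (by fun_prop)).inter (isClosed_le (by fun_prop) (by fun_prop))

lemma cb_closed (y : Z n) : IsClosed (⋃ κ, closedBall (cen y κ) (rad y κ)) :=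
  isClosed_iUnion_of_finite fun _ => isClosed_closedBall

lemma O_open (y : Z n) : IsOpen (O y) :=
  ((cube_open y).sdiff (cb_closed y)).union (isOpen_iUnion fun _ => isOpen_ball)

lemma U_open (Y : Set (Z n)) : IsOpen (U Y) := isOpen_biUnion fun y _ => O_open y

lemma cube_inj {y y' : Z n} {x} (h : x ∈ cube y) (h' : x ∈ cube y') : y = y' := funext fun i => by
  have a : (y i : ℝ) < y' i + 1 := (h i).1.trans (h' i).2
  have b : (y' i : ℝ) < y i + 1 := (h' i).1.trans (h i).2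
  norm_cast at a b; omega

lemma O_inj {y y' : Z n} {x} (h : x ∈ O y) (h' : x ∈ O y') : y = y' := by
  have k : ∀ {y y' : Z n} (κ : K n), x ∈ cube y \ ⋃ κ, closedBall (cen y κ) (rad y κ) →
      x ∉ ball (cen y' κ) (rad y' κ) := fun κ a b => by
    obtain rfl := cube_inj a.1 (inc' _ _ b)
    exact a.2 (mem_iUnion.2 ⟨κ, ball_subset_closedBall b⟩)
  rcases h with h | ⟨_, ⟨κ, rfl⟩, h⟩ <;> rcases h' with h' | ⟨_, ⟨κ', rfl⟩, h'⟩
  · exact cube_inj h.1 h'.1
  · exact (k _ h h').elim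
  · exact (k _ h' h).elim
  have e := cube_inj (inc' _ _ h) (inc' _ _ h')
  by_cases q : κ = κ'
  · subst q; exact add_right_cancel e
  have := sep (y + ed κ.1) q
  beta_reduce at h h'
  rw [← e] at h'
  have := dist_triangle_left (cen (y + ed κ.1) κ) (cen (y + ed κ.1) κ') x
  rw [mem_ball] at h h'
  linarith [rad_bd (y + ed κ.1) κ, rad_bd (y + ed κ.1) κ']

lemma ball_O (y : Z n) (κ : K n) : ball (cen y κ) (rad y κ) ⊆ O (y - ed κ.1) := fun x hx =>
  .inr (mem_iUnion.2 ⟨κ, by simpa using hx⟩)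

lemma cball_O (y : Z n) (κ : K n) : closedBall (cen y κ) (rad y κ) ⊆ closure (O (y - ed κ.1)) :=
  (closure_ball _ (rad_pos y κ).ne').symm.subset.trans (closure_mono (ball_O y κ))

lemma ccube_cl (y : Z n) : ccube y ⊆ closure (cube y) := fun x hx => by
  let m : E (n + 2) := WithLp.toLp 2 fun i => y i + 1 / 2
  refine mem_closure_of_tendsto (f := fun t : ℝ => x + t • (m - x)) (b := 𝓝[>] 0) ?_ ?_
  · exact tendsto_nhdsWithin_of_tendsto_nhds (Continuous.tendsto' (by fun_prop) _ _ (by simp))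
  · filter_upwards [Ioo_mem_nhdsGT one_pos] with t ht i
    have := hx i
    simp only [m, PiLp.add_apply, PiLp.smul_apply, PiLp.sub_apply, smul_eq_mul]
    constructor <;> nlinarith [ht.1, ht.2]

lemma cc {y : Z n} {x} (h : x ∈ ccube y) (h' : x ∉ ⋃ κ, closedBall (cen y κ) (rad y κ)) :
    x ∈ closure (O y) :=
  closure_mono (fun _ a => .inl ⟨a.2, a.1⟩) ((cb_closed y).isOpen_compl.inter_closure ⟨h', ccube_cl y h⟩)

lemma cover (x : E (n + 2)) : ∃ y : Z n, (∀ i, |(y i : ℝ) - x i| ≤ 2) ∧ x ∈ closure (O y) := by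
  have k : ∀ i, (⌊x i⌋ : ℝ) ≤ x i ∧ x i ≤ ⌊x i⌋ + 1 := fun i => ⟨Int.floor_le _, (Int.lt_floor_add_one _).le⟩
  by_cases q : x ∈ ⋃ κ, closedBall (cen (fun i => ⌊x i⌋) κ) (rad (fun i => ⌊x i⌋) κ)
  · obtain ⟨κ, q⟩ := mem_iUnion.1 q
    refine ⟨_, fun i => ?_, cball_O _ _ q⟩
    have := k i
    simp only [Pi.sub_apply, ed, abs_le]
    split_ifs <;> push_cast <;> constructor <;> linarith
  · exact ⟨_, fun i => abs_le.2 (by constructor <;> linarith [k i]), cc k q⟩

lemma O_bd {y : Z n} {x} (h : x ∈ O y) (i) : |x i - y i| ≤ 2 := by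
  rcases h with h | ⟨_, ⟨κ, rfl⟩, h⟩
  · exact abs_le.2 (by constructor <;> linarith [h.1 i])
  · have := inc' _ _ h i
    simp only [Pi.add_apply, ed, abs_le] at *
    split_ifs at this <;> push_cast at this <;> constructor <;> linarith

lemma cen_add (y l : Z n) (κ : K n) : cen (y + l) κ = cen y κ + emb l := by
  ext i; simp [cen, emb]; ring

lemma O_add {l : Z n} (hl : l 1 % 4 = 0) (y : Z n) (x) : x + emb l ∈ O (y + l) ↔ x ∈ O y := by
  have r : ∀ y κ, rad (y + l) κ = rad y κ := fun y κ => by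
    simp only [rad, Pi.add_apply, show (y 1 + l 1) % 4 = y 1 % 4 by omega]
  simp only [O, add_right_comm y l, cen_add _ l, r, mem_union, mem_diff, mem_iUnion, mem_ball,
    mem_closedBall, dist_add_right]
  simp [cube, emb, add_right_comm _ _ (1 : ℝ)]

def B (Y : Set (Z n)) (l : Z n) : Set (E (n + 2)) := closure (U ((· + l) '' Y))

lemma B_eq {l : Z n} (hl : l 1 % 4 = 0) (Y : Set (Z n)) :
    B Y l = IsometryEquiv.addRight (emb l) '' B Y 0 := by
  rw [B, B, ← im_cl]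
  congr 1
  ext x
  obtain ⟨x, rfl⟩ := (IsometryEquiv.addRight (emb l)).surjective x
  rw [(IsometryEquiv.injective _).mem_set_image]
  simp only [U, biUnion_image, mem_iUnion₂, add_zero, IsometryEquiv.addRight_apply, O_add hl]

lemma O_B {Y : Set (Z n)} {y} (h : y ∈ Y) (l) : O (y + l) ⊆ interior (B Y l) :=
  interior_maximal (fun _ hx => subset_closure (mem_biUnion (mem_image_of_mem (· + l) h) hx)) (O_open _)

lemma O_ne (y : Z n) : (O y).Nonempty :=
  ⟨_, .inr (mem_iUnion.2 ⟨(0, none), mem_ball_self (rad_pos _ _)⟩)⟩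

lemma B_bd {Y : Set (Z n)} {S : ℝ} (hS : ∀ y ∈ Y, ∀ i, |(y i : ℝ)| ≤ S) {l x} (h : x ∈ B Y l) (i) :
    |x i - l i| ≤ S + 2 := by
  refine closure_minimal (t := {x : E (n + 2) | |x i - (l i : ℝ)| ≤ S + 2}) ?_ (isClosed_le (by fun_prop) (by fun_prop)) h
  rintro x ⟨_, ⟨_, rfl⟩, _, ⟨⟨y, hy, rfl⟩, rfl⟩, hx⟩
  have := abs_le.1 (O_bd hx i)
  have := abs_le.1 (hS y hy i)
  simp only [Pi.add_apply, Int.cast_add, mem_setOf, abs_le] at *
  constructor <;> linarith

lemma body {Y : Set (Z n)} {S : ℝ} (hS : ∀ y ∈ Y, ∀ i, |(y i : ℝ)| ≤ S) (h0 : 0 ∈ Y) :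
    IsBody (B Y 0) := by
  refine ⟨isCompact_of_isClosed_isBounded isClosed_closure (((PiLp.antilipschitzWith_ofLp 2 _).isBounded_preimage
    (Metric.isBounded_Icc (fun _ => -(S + 2)) fun _ => S + 2)).subset fun x hx => ?_),
    (O_ne _).mono (O_B h0 0), (closure_minimal interior_subset isClosed_closure).antisymm'
    (closure_mono (interior_maximal subset_closure (U_open _)))⟩
  exact ⟨fun i => by simpa using (abs_le.1 (B_bd hS hx i)).1, fun i => by
    simpa using (abs_le.1 (B_bd hS hx i)).2⟩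

end Pool.Agent.H.MP_127c5d_co
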