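import Pool.Agent.H.MP_127c5d_co.B

set_option autoImplicit false

namespace Pool.Agent.H.MP_127c5d_co
open Set Metric MeasureTheory Filter Topology

variable {n : ℕ}

def Ph (Y : Set (Z n)) : Set (E (n + 2) × ℝ) :=
  (⋃ y ∈ Y, range fun κ : K n => (cen (y + ed κ.1) κ, rad (y + ed κ.1) κ)) ∪
    {f | f.2 = 0 ∧ f.1 ∈ B Y 0 ∧ ∃ y ∈ Y, ∀ i, f.1 i = y i ∨ f.1 i = y i + 1}

lemma orth (w : E (n + 2)) : ∃ u : E (n + 2), u ≠ 0 ∧ inner ℝ w u = 0 := by
  by_cases q : w 0 = 0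
  · exact ⟨EuclideanSpace.single 0 1, by simp, by simp [EuclideanSpace.inner_single_right, q]⟩
  · refine ⟨EuclideanSpace.single 0 (w 1) - EuclideanSpace.single 1 (w 0), fun h => q ?_, by
      simp [inner_sub_right, EuclideanSpace.inner_single_right, mul_comm]⟩
    simpa using congrArg (fun x => x 1) h

lemma feat {Y : Set (Z n)} (hY : Y.Finite) : Feat (Ph Y) (B Y 0) := by
  have sub : ∀ y ∈ Y, closure (O y) ⊆ B Y 0 := fun y hy =>
    closure_minimal (by simpa using (O_B hy 0).trans interior_subset) isClosed_closure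
  refine ⟨isClosed_closure, (hY.biUnion fun _ _ => finite_range _).union ((hY.biUnion fun y _ =>
    finite_range fun b : Fin (n + 2) → Bool => ((WithLp.toLp 2 fun i => y i + if b i then 1 else 0 :
      E (n + 2)), (0 : ℝ))).subset ?_), ?_, fun z hz => ?_⟩
  · rintro ⟨x, r⟩ ⟨rfl, -, y, hy, h⟩
    refine mem_biUnion hy ⟨fun i => decide (x i ≠ y i), Prod.ext ?_ rfl⟩
    ext i
    rcases h i with h | h <;> simp_all
  · rintro f (⟨_, ⟨y, rfl⟩, _, ⟨hy, rfl⟩, κ, rfl⟩ | ⟨a, b, -⟩)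
    · exact (cball_O (y + ed κ.1) κ).trans (by rw [add_sub_cancel_right]; exact sub y hy)
    · simpa [a]
  have hz' := hz
  rw [B, U, (hY.image _).closure_biUnion, biUnion_image] at hz'
  obtain ⟨y, hy, h⟩ := mem_iUnion₂.1 hz'
  rw [add_zero, O, closure_union, closure_iUnion_of_finite] at h
  rcases h with h | ⟨_, ⟨κ, rfl⟩, h⟩
  swap
  · exact .inl ⟨_, .inl (mem_biUnion hy ⟨κ, rfl⟩), closure_ball_subset_closedBall h⟩
  have h1 : z ∈ ccube y := closure_minimal (fun x a i => ⟨(a.1 i).1.le, (a.1 i).2.le⟩) (ccube_closed y) h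
  by_cases q : z ∈ ⋃ κ, closedBall (cen y κ) (rad y κ)
  · obtain ⟨κ, q⟩ := mem_iUnion.1 q
    have h2 : z ∈ (ball (cen y κ) (rad y κ))ᶜ := closure_minimal (fun x a b => a.2 (mem_iUnion.2
      ⟨κ, ball_subset_closedBall b⟩)) isOpen_ball.isClosed_compl h
    have e : ‖z - cen y κ‖ = rad y κ := by
      rw [← dist_eq_norm]; exact le_antisymm q (not_lt.1 h2)
    obtain ⟨u, u0, hu⟩ := orth (z - cen y κ)
    refine .inr (dirn u0 ?_)
    have : ∀ᶠ t in 𝓝 (0 : ℝ), dist (z + t • u) (cen y κ) < 3 / 80 :=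
      (by fun_prop : Continuous fun t : ℝ => dist (z + t • u) (cen y κ)).continuousAt.eventually_lt
        continuousAt_const (by simp only [zero_smul, add_zero, dist_eq_norm, e]; linarith [rad_bd y κ])
    filter_upwards [nhdsWithin_le_nhds this, self_mem_nhdsWithin] with t a b
    refine sub y hy (subset_closure (shell y κ ⟨a, fun c => ?_⟩))
    rw [mem_closedBall, dist_eq_norm, add_sub_right_comm, ← e] at c
    have := pow_le_pow_left₀ (norm_nonneg _) c 2
    rw [norm_add_sq_real, inner_smul_right, hu] at this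
    have : 0 < ‖t • u‖ := norm_pos_iff.2 (smul_ne_zero b u0)
    nlinarith
  by_cases v : ∀ i, z i = y i ∨ z i = y i + 1
  · exact .inl ⟨(z, 0), .inr ⟨rfl, hz, y, hy, v⟩, by simp⟩
  push Not at v
  obtain ⟨i, v1, v2⟩ := v
  refine .inr (dirn (u := EuclideanSpace.single i 1) (by simp) (nhdsWithin_le_nhds ?_))
  have a : ∀ᶠ t in 𝓝 (0 : ℝ), z + t • EuclideanSpace.single i 1 ∈ (⋃ κ, closedBall (cen y κ) (rad y κ))ᶜ :=
    (by fun_prop : Continuous fun t : ℝ => z + t • EuclideanSpace.single i (1 : ℝ)).continuousAt.eventually_mem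
      ((cb_closed y).isOpen_compl.mem_nhds (by rw [zero_smul, add_zero]; exact q))
  filter_upwards [a, Ioo_mem_nhds (sub_neg.2 ((h1 i).1.lt_of_ne' v1)) (sub_pos.2 ((h1 i).2.lt_of_ne v2))]
    with t a b
  refine sub y hy (cc (fun j => ?_) a)
  by_cases e : j = i
  · subst e; simp; constructor <;> linarith [b.1, b.2]
  · simpa [e] using h1 j

def Lat (Y L : Set (Z n)) : Prop := 0 ∈ L ∧ (∀ l ∈ L, l 1 % 4 = 0) ∧
  ∀ l ∈ L, ∀ l' ∈ L, ∀ y ∈ Y, ∀ y' ∈ Y, y + l = y' + l' → l = l'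

def Cov (Y L : Set (Z n)) (z : Z n) : Prop := ∃ l ∈ L, ∃ y ∈ Y, z = y + l

lemma cen_sat (y : Z n) (d) (j) :
    cen y (d, some j) = cen y (d, none) + EuclideanSpace.single j (dl j) := by
  ext i; by_cases q : i = j
  · simp [cen, q]
  · simp [cen, q, Ne.symm q]

lemma dist_sat (y : Z n) (d) (j) : dist (cen y (d, some j)) (cen y (d, none)) = dl j := by
  rw [cen_sat, dist_self_add_left, EuclideanSpace.norm_single, Real.norm_of_nonneg (by linarith [dl_bd j])]

lemma force {Y : Set (Z n)} (hY : Y.Finite) (hB : IsBody (B Y 0)) {P} (hP : Patch (B Y 0) P)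
    (cov : ⋃₀ P = univ) (h0 : B Y 0 ∈ P) :
    ∃ L, Lat Y L ∧ ∀ z d, Cov Y L z → Cov Y L (z - ed d) := by
  choose! g hg using hP.1
  have dj : ∀ l, B Y l ∈ P → ∀ T ∈ P, T ≠ B Y l → ∀ y ∈ Y, Disjoint T (O (y + l)) := fun l hl T hT ne y hy => by
    have := ((hP.2 hT hl ne).mono_right (O_B hy l)).closure_left (O_open _)
    rwa [hg T hT, im_int, im_cl, ← hB.2.2, ← hg T hT] at this
  refine ⟨{l | l 1 % 4 = 0 ∧ B Y l ∈ P}, ⟨⟨rfl, h0⟩, fun l h => h.1, fun l h l' h' y hy y' hy' e => ?_⟩, ?_⟩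
  · have : B Y l = B Y l' := by_contra fun q => by
      obtain ⟨x, hx⟩ := O_ne (y + l)
      exact disjoint_left.1 (dj l' h'.2 _ h.2 q y' hy') (interior_subset (O_B hy l hx)) (by rwa [← e])
    rw [B_eq h.1, B_eq h'.1] at this
    have := shift_eq hB.1 (hB.2.1.mono interior_subset) (v := emb l - emb l') fun x hx => by
      obtain ⟨w, a, b⟩ := this.subset (mem_image_of_mem _ hx)
      simp only [IsometryEquiv.addRight_apply] at b
      rwa [← add_sub_assoc, ← b, add_sub_cancel_right]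
    funext i
    simpa [emb, sub_eq_zero] using congrArg (fun x => x i) this
  rintro _ d ⟨l, hl, y, hy, rfl⟩
  by_cases q : ∃ y' ∈ Y, y + l - ed d = y' + l
  · exact ⟨l, hl, q⟩
  have e0 : Disjoint (B Y l) (O (y + l - ed d)) := by
    refine Disjoint.closure_left (disjoint_left.2 ?_) (O_open _)
    rintro x ⟨_, ⟨_, rfl⟩, _, ⟨⟨y', hy', rfl⟩, rfl⟩, hx⟩ h
    exact q ⟨y', hy', O_inj h hx⟩
  have e1 : ∀ T ∈ P, (T ∩ ball (cen (y + l) (d, none)) (rad (y + l) (d, none))).Nonempty →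
      Disjoint T (O (y + l)) := fun T hT ⟨x, a, b⟩ =>
    dj l hl.2 T hT (fun e => disjoint_left.1 e0 (by rwa [← e]) (ball_O _ (d, none) b)) y hy
  obtain ⟨T, hT, ne, hf⟩ := cav (fun T => Prod.map (g T) id '' Ph Y) (rad_pos (y + l) (d, none))
    (show _ < 3 / 80 by linarith [rad_bd (y + l) (d, none)]) (locfin hB hP _ _) cov fun T hT ne =>
      ⟨by nth_rewrite 2 [hg T hT]; exact (feat hY).image _, (e1 T hT ne).mono_right (shell _ _)⟩
  obtain ⟨f, ⟨_, ⟨y', rfl⟩, _, ⟨hy', rfl⟩, κ, rfl⟩ | ⟨a, -⟩, hf⟩ := hf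
  swap
  · exact ((rad_pos (y + l) (d, none)).ne (a.symm.trans (show f.2 = _ from congrArg Prod.snd hf))).elim
  obtain ⟨c1, c2⟩ := Prod.ext_iff.1 hf
  obtain ⟨rfl, m4⟩ := rad_inj c2
  simp only [Prod.map_fst] at c1
  generalize hy0 : y + l = y0 at *
  generalize hy1 : y' + ed d = y1 at *
  have sat : ∀ j, g T (cen y1 (d, some j)) = cen y0 (d, some j) := fun j => by
    have w1 : dist (g T (cen y1 (d, some j))) (cen y0 (d, none)) = dl j := by
      rw [← c1, (g T).dist_eq, dist_sat]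
    have w2 : Disjoint (closedBall (g T (cen y1 (d, some j))) (8 / 640)) (O y0) := by
      refine (e1 T hT ne).mono_left ?_
      rw [← (g T).image_closedBall]
      refine (image_mono ((feat hY).2.2.1 (_, _) (.inl (mem_biUnion hy' ⟨(d, some j), ?_⟩)))).trans
        (hg T hT).symm.subset
      simp only [hy1, rad, reduceCtorEq, if_false]; rfl
    have w3 := disjoint_left.1 w2 (mem_closedBall_self (by norm_num))
    have := dl_bd j
    obtain ⟨⟨d', o⟩, hκ⟩ := mem_iUnion.1 (by_contra fun q => w3 (.inl ⟨inc y0 (d, none)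
      (by rw [mem_ball, w1]; exact this.2), q⟩))
    have rb := rad_bd y0 (d', o)
    have w4 := inb (w2.mono_right (shell _ _)) (by linarith) (mem_closedBall_self (by norm_num)) hκ
    obtain rfl : d' = d := by_contra fun q => by
      have := sep1 y0 (κ := (d', o)) (κ' := (d, none)) q
      linarith [dist_triangle_left (cen y0 (d', o)) (cen y0 (d, none)) (g T (cen y1 (d, some j)))]
    rcases o with _ | j'
    · linarith
    simp only [rad, reduceCtorEq, if_false, add_le_iff_nonpos_left, dist_le_zero] at w4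
    rw [w4, dist_sat] at w1
    rw [w4, dl_inj w1]
  have tr := transl (g T) (cen y1 (d, none)) (emb (y0 - y1)) dl (fun j => by linarith [dl_bd j])
    (by rw [c1, ← cen_add, add_sub_cancel]) fun j => by rw [← cen_sat, sat, ← cen_add, add_sub_cancel]
  refine ⟨y0 - y1, ⟨m4, ?_⟩, y', hy', by rw [← hy1]; abel⟩
  rwa [B_eq m4, image_congr (f := IsometryEquiv.addRight (emb (y0 - y1))) (g := g T)
    fun x _ => (tr x).symm, ← hg T hT]

lemma normal {A : Set (E n)} {P} (hP : Patch A P) (cov : ⋃₀ P = univ) :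
    ∃ P', Patch A P' ∧ ⋃₀ P' = univ ∧ A ∈ P' := by
  obtain ⟨T, hT, -⟩ := cov ▸ mem_univ (0 : E n)
  obtain ⟨g, rfl⟩ := hP.1 T hT
  refine ⟨image g.symm '' P, ⟨forall_mem_image.2 fun T hT => ?_, ?_⟩, ?_, _, hT, by simp [image_image]⟩
  · obtain ⟨h, rfl⟩ := hP.1 T hT
    exact ⟨h.trans g.symm, image_image ..⟩
  · rintro _ ⟨T, a, rfl⟩ _ ⟨T', b, rfl⟩ h
    rw [im_int, im_int]
    exact disjoint_image_of_injective g.symm.injective (hP.2 a b fun e => h (by rw [e]))
  · rw [sUnion_image, ← image_iUnion₂, ← sUnion_eq_biUnion, cov, image_univ, g.symm.range_eq_univ]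

lemma surr {Y L : Set (Z n)} {S k : ℕ} (hS : ∀ y ∈ Y, ∀ i, |y i| ≤ S) (fin : L.Finite) (hL : Lat Y L)
    (cov : ∀ z : Z n, (∀ i, |z i| ≤ (k + 1) * (2 * S + 4) + 3) → Cov Y L z) :
    ∃ P, P.Finite ∧ Patch (B Y 0) P ∧ B Y 0 ∈ P ∧
      ∀ j ≤ k, ⋃₀ corona P (B Y 0) j ⊆ interior (⋃₀ corona P (B Y 0) (j + 1)) := by
  have hS' : ∀ y ∈ Y, ∀ i, |(y i : ℝ)| ≤ S := fun y h i => by exact_mod_cast hS y h i
  refine ⟨B Y '' L, fin.image _, ⟨forall_mem_image.2 fun l hl => ⟨_, B_eq (hL.2.1 l hl) Y⟩, ?_⟩,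
    mem_image_of_mem _ hL.1, cor (D := 2 * S + 4) (fin.image _) (forall_mem_image.2 fun _ _ =>
      isClosed_closure) (forall_mem_image.2 fun l _ x hx y hy i => ?_) (by positivity)
      (fun x hx i => ?_) fun x hx => ?_⟩
  · rintro _ ⟨l, a, rfl⟩ _ ⟨l', b, rfl⟩ h
    refine (Disjoint.closure_right ((Disjoint.closure_left (disjoint_left.2 ?_) (U_open _)).mono_left
      interior_subset) isOpen_interior).mono_right interior_subset
    rintro x ⟨_, ⟨_, rfl⟩, _, ⟨⟨y, hy, rfl⟩, rfl⟩, hx⟩ ⟨_, ⟨_, rfl⟩, _, ⟨⟨y', hy', rfl⟩, rfl⟩, hx'⟩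
    exact h (by rw [hL.2.2 l a l' b y hy y' hy' (O_inj hx hx')])
  · have := abs_le.1 (B_bd hS' hx i)
    have := abs_le.1 (B_bd hS' hy i)
    exact abs_le.2 (by constructor <;> linarith)
  · have := B_bd hS' hx i
    simp only [Pi.zero_apply, Int.cast_zero, sub_zero] at this
    linarith [Nat.cast_nonneg (α := ℝ) S]
  · obtain ⟨z, a, b⟩ := cover x
    obtain ⟨l, hl, y, hy, rfl⟩ := cov z fun i => by
      have := abs_le.1 (a i)
      have := abs_lt.1 (hx i)
      exact_mod_cast (abs_le.2 (by constructor <;> linarith) : |(z i : ℝ)| ≤ (k + 1) * (2 * S + 4) + 3)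
    exact ⟨_, mem_image_of_mem _ hl, closure_minimal ((O_B hy l).trans interior_subset) isClosed_closure b⟩

end Pool.Agent.H.MP_127c5d_co
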