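import Pool.Agent.H.MP_127c5d_co.C

set_option autoImplicit false

namespace Pool.Agent.H.MP_127c5d_co
open Set Function

variable {n : ℕ}

def tx : Fin 4 → Fin 6 → ℕ := ![![0,1,2,3,4,5], ![0,2,4,1,3,5], ![0,3,1,2,4,5], ![0,5,1,5,0,4]]
def ta : Fin 4 → Fin 6 → ℕ := ![![0,0,0,0,0,0], ![0,0,0,1,1,1], ![0,0,0,0,0,0], ![0,1,0,0,1,1]]
def tb : Fin 4 → Fin 6 → ℕ := ![![0,0,0,0,0,0], ![0,0,0,0,0,0], ![0,0,1,1,1,1], ![0,0,1,1,1,1]]

def sel (a b c e : ZMod 6) (α β : ℕ) : ZMod 6 :=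
  if α = 0 then if β = 0 then a else c else if β = 0 then b else e

lemma tbd : ∀ τ i, tx τ i ≤ 5 ∧ ta τ i ≤ 1 ∧ tb τ i ≤ 1 := by decide

lemma t0 : ∀ i, tx 0 i = i ∧ ta 0 i = 0 ∧ tb 0 i = 0 := by decide

lemma dec1 : ∀ a b c e : ZMod 6, (∀ τ X, ∃ i, X = tx τ i + sel a b c e (ta τ i) (tb τ i)) →
    3 * a = 3 * b ∧ 2 * a = 2 * c ∧ (3 * c = 3 * e → 2 * b = 2 * e → 3 * c = 3 * a + 3 ∨ 2 * b = 2 * a + 2) := by
  decide +kernel

lemma dec2 : ∀ A A' B B' : ZMod 6, (A' = A + 1 ∨ B = B' + 1) → ∀ τ, Bijective fun i => (tx τ i : ZMod 6) +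
    sel (3 * A + 2 * B) (3 * A + 2 * B') (3 * A' + 2 * B) (3 * A' + 2 * B') (ta τ i) (tb τ i) := by
  decide +kernel

lemma sel_eq (s : ℤ → ZMod 6) (R p q : ℤ) (τ i) : sel (s R) (s (R + p)) (s (R + q)) (s (R + p + q))
    (ta τ i) (tb τ i) = s (R + (ta τ i * p + tb τ i * q)) := by
  obtain ⟨-, a, b⟩ := tbd τ i
  generalize ta τ i = α at *
  generalize tb τ i = β at *
  interval_cases α <;> interval_cases β <;> simp [sel, add_assoc]

lemma crt (M : ℕ) (V W : ℕ → ZMod 6) (hV : Periodic V (6 * M + 1)) (hW : Periodic W (6 * M + 2))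
    (h : ∀ m, V m = V (m + 1) + 3 ∨ W m = W (m + (6 * M + 1)) + 2) : False := by
  have s6 : (6 : ZMod 6) = 0 := rfl
  obtain ⟨a, ha⟩ : ∃ a, V a ≠ V (a + 1) + 3 := by
    by_contra! q
    have : ∀ m : ℕ, V 0 = V m + 3 * m := fun m => by
      induction m with
      | zero => simp
      | succ m ih => rw [ih, q]; push_cast; ring
    have := this (6 * M + 1)
    rw [hV.eq] at this
    push_cast at this
    exact absurd (show (3 : ZMod 6) = 0 by linear_combination -this - 3 * M * s6) (by decide)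
  obtain ⟨b, hb⟩ : ∃ b, W b ≠ W (b + (6 * M + 1)) + 2 := by
    by_contra! q
    have : ∀ m : ℕ, W 0 = W ((6 * M + 1) * m) + 2 * m := fun m => by
      induction m with
      | zero => simp
      | succ m ih => rw [ih, q, mul_add_one]; push_cast; ring
    have := this (6 * M + 2)
    rw [show W ((6 * M + 1) * (6 * M + 2)) = W 0 from hW.nat_mul_eq (6 * M + 1)] at this
    push_cast at this
    exact absurd (show (4 : ZMod 6) = 0 by linear_combination -this - 2 * M * s6) (by decide)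
  obtain ⟨m, m1, m2⟩ := Nat.chineseRemainder (show (6 * M + 1).Coprime (6 * M + 1 + 1) by simp) a b
  have v : ∀ t, V (m + t) = V (a + t) := fun t => by
    rw [← hV.map_mod_nat, m1.add_right t, hV.map_mod_nat]
  have w : ∀ t, W (m + t) = W (b + t) := fun t => by
    rw [← hW.map_mod_nat, m2.add_right t, hW.map_mod_nat]
  rcases h m with h | h
  · exact ha ((v 0).symm.trans (v 1 ▸ h))
  · exact hb ((w 0).symm.trans (w _ ▸ h))

def mk (a b : ℤ) : Z n := fun j => if j.val = 0 then a else if j.val = 1 then b else 0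

lemma mk_add (a b c d : ℤ) : (mk a b : Z n) + mk c d = mk (a + c) (b + d) := by
  funext j; simp only [mk, Pi.add_apply]; split_ifs <;> simp

def YY (n : ℕ) (p : ℤ) : Set (Z n) :=
  range fun t : Fin 4 × Fin 6 => mk (tx t.1 t.2) (t.1 - 4 * (ta t.1 t.2 * p + tb t.1 t.2 * (p + 1)))

lemma YY0 (p : ℤ) (i : Fin 6) : mk i 0 ∈ YY n p := ⟨(0, i), by simp [t0]⟩

lemma mk0 : (mk 0 0 : Z n) = 0 := by funext j; simp [mk]

lemma noL (M : ℕ) {L} (hL : Lat (YY n (6 * M + 1)) L)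
    (hc : ∀ z d, Cov (YY n (6 * M + 1)) L z → Cov (YY n (6 * M + 1)) L (z - ed d)) : False := by
  have qd : ∀ a b : ℕ, Cov (YY n (6 * M + 1)) L (mk (-a) (-b)) := fun a b => by
    induction a with
    | zero =>
      induction b with
      | zero => exact ⟨0, hL.1, _, YY0 _ 0, by simp⟩
      | succ b ih =>
        refine cast (congrArg _ ?_) (hc _ 1 ih)
        funext j; simp only [mk, ed, Pi.sub_apply]; split_ifs <;> simp_all; ring
    | succ a ih =>
      refine cast (congrArg _ ?_) (hc _ 0 ih)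
      funext j; simp only [mk, ed, Pi.sub_apply]; split_ifs <;> simp_all; ring
  generalize hp : (6 * M + 1 : ℤ) = p at *
  have cv : ∀ X ≤ 0, ∀ R ≤ -1, ∀ τ : Fin 4, ∃ i,
      mk (X - tx τ i) (4 * (R + (ta τ i * p + tb τ i * (p + 1)))) ∈ L := fun X hX R hR τ => by
    obtain ⟨l, hl, _, ⟨⟨τ', i⟩, rfl⟩, e⟩ := qd X.natAbs (4 * R + τ).natAbs
    have := hL.2.1 l hl
    have e1 : -_ = _ - _ + l 1 := congrFun e 1
    obtain rfl : τ' = τ := by dsimp only at e1; omega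
    refine ⟨i, mem_of_eq_of_mem (Eq.symm ?_) hl⟩
    rw [← add_right_inj, ← e, mk_add]
    congr 1 <;> dsimp only <;> omega
  have pk : ∀ r u u', mk u r ∈ L → mk u' r ∈ L → u ≤ u' → u' ≤ u + 5 → u = u' := fun r u u' a b c d =>
    congrFun (hL.2.2 _ a _ b _ (YY0 p ⟨(u' - u).natAbs, by omega⟩) _ (YY0 p 0) (by
      rw [mk_add, mk_add]; congr 1; simp only [Fin.val_zero]; omega)) 0
  have row : ∀ r ≤ -1, ∃ s : ZMod 6, ∀ u ≤ 0, mk u (4 * r) ∈ L → (u : ZMod 6) = s := fun r hr => by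
    have c0 : ∀ X ≤ 0, ∃ u, X - 5 ≤ u ∧ u ≤ X ∧ mk u (4 * r) ∈ L := fun X hX => by
      obtain ⟨i, hi⟩ := cv X hX r hr 0
      exact ⟨X - tx 0 i, by have := tbd 0 i; omega, by omega, by simpa [t0] using hi⟩
    obtain ⟨u0, a, b, c⟩ := c0 0 le_rfl
    have : ∀ i : ℕ, mk (u0 - 6 * i) (4 * r) ∈ L := fun i => by
      induction i with
      | zero => simpa using c
      | succ i ih =>
        obtain ⟨u, u1, u2, u3⟩ := c0 (u0 - 6 * i - 1) (by omega)
        by_cases q : u0 - 6 * i ≤ u + 5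
        · have := pk _ _ _ u3 ih (by omega) q; omega
        · rwa [show u0 - 6 * (i + 1 : ℕ) = u by omega]
    refine ⟨u0, fun u hu h => ?_⟩
    rw [← pk _ _ _ (this ((u0 - u + 5) / 6).natAbs) h (by omega) (by omega)]
    push_cast
    rw [show (6 : ZMod 6) = 0 from rfl, zero_mul, sub_zero]
  choose! S hS using row
  have k : ∀ R, R + p + (p + 1) ≤ -1 → _ := fun R hR => dec1 (S R) (S (R + p)) (S (R + (p + 1)))
    (S (R + p + (p + 1))) fun τ X => by
      obtain ⟨i, hi⟩ := cv (-(-X).val) (by omega) R (by omega) τ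
      obtain ⟨-, a, b⟩ := tbd τ i
      refine ⟨i, ?_⟩
      rw [sel_eq, ← hS _ _ _ (by omega) hi]
      · simp
      · have : (ta τ i : ℤ) * p ≤ 1 * p := by gcongr <;> omega
        have : (tb τ i : ℤ) * (p + 1) ≤ 1 * (p + 1) := by gcongr <;> omega
        omega
  have h1 : ∀ R R', R' = R + p → R + p + (p + 1) ≤ -1 → 3 * S R = 3 * S R' := fun R _ e h => e ▸ (k R h).1
  have h2 : ∀ R R', R' = R + (p + 1) → R + p + (p + 1) ≤ -1 → 2 * S R = 2 * S R' :=
    fun R _ e h => e ▸ (k R h).2.1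
  refine crt M (fun m => 3 * S (-2 - 2 * p - m)) (fun m => 2 * S (-2 - 2 * p - m))
    (fun m => h1 _ _ (by omega) (by omega)) (fun m => h2 _ _ (by omega) (by omega)) fun m => ?_
  obtain ⟨R, hR⟩ : ∃ R, R = -2 - 2 * p - m - p - (p + 1) := ⟨_, rfl⟩
  refine ((k R (by omega)).2.2 (h1 _ _ (by omega) (by omega))
    (h2 _ _ (by omega) (by omega))).imp (fun h => ?_) fun h => ?_
  · linear_combination h - h1 (R + (p + 1)) (-2 - 2 * p - m) (by omega) (by omega) + h1 R _ rfl (by omega) +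
      h1 (R + p) (-2 - 2 * p - (m + 1 : ℕ)) (by omega) (by omega)
  · linear_combination h - h2 (R + p) (-2 - 2 * p - m) (by omega) (by omega) +
      h2 R (-2 - 2 * p - (m + (6 * M + 1) : ℕ)) (by omega) (by omega)

lemma step {m : ℤ} (hm : 0 < m) (R : ℤ) : (R + 1) % m = R % m + 1 ∨ m ∣ R + 1 := by
  have := Int.emod_nonneg R hm.ne'
  rw [Int.dvd_iff_emod_eq_zero, ← Int.emod_add_emod]
  rcases (Int.add_one_le_of_lt (Int.emod_lt_of_pos R hm)).lt_or_eq with h | h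
  · exact .inl (Int.emod_eq_of_lt (by omega) h)
  · exact .inr (by rw [h, Int.emod_self])

def ss (p r : ℤ) : ZMod 6 := 3 * (r % p : ℤ) + 2 * (r % (p + 1) : ℤ)

lemma valid {p R : ℤ} (hp : 0 < p) (h1 : 0 < R + p + 1) (h2 : R + p + 1 < p * (p + 1)) (τ) :
    Bijective fun i => (tx τ i : ZMod 6) + ss p (R + (ta τ i * p + tb τ i * (p + 1))) := by
  simp only [← sel_eq (ss p)]
  have e : (R + p + (p + 1)) % p = (R + (p + 1)) % p := by rw [add_right_comm, Int.add_emod_right]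
  simp only [ss, e, Int.add_emod_right]
  refine dec2 _ _ _ _ ?_ τ
  rcases step hp (R + p) with a | a
  · rw [add_assoc, Int.add_emod_right] at a
    exact .inl (by exact_mod_cast congrArg (Int.cast (R := ZMod 6)) a)
  rcases step (show 0 < p + 1 by omega) (R + p) with b | b
  · rw [add_assoc, Int.add_emod_right] at b
    exact .inr (by exact_mod_cast congrArg (Int.cast (R := ZMod 6)) b)
  exact absurd (Int.le_of_dvd h1 (IsCoprime.mul_dvd ⟨-1, 1, by ring⟩ a b)) h2.not_ge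

lemma long {p : ℤ} {N S : ℕ} (hp : 0 < p) (hS : ∀ y ∈ YY n p, ∀ i, |y i| ≤ S)
    (hN : 2 * N + 2 * p + 2 < p * (p + 1)) :
    ∃ L, L.Finite ∧ Lat (YY n p) L ∧ ∀ z : Z n, (∀ i, |z i| + S ≤ N) → Cov (YY n p) L z := by
  refine ⟨{l | (∀ j, |l j| ≤ N) ∧ l 1 % 4 = 0 ∧ (l 0 : ZMod 6) + ss p (N + p + 1) = ss p (l 1 / 4 + (N + p + 1))},
    (finite_Icc (fun _ => -(N : ℤ)) fun _ => N).subset fun l h => ⟨fun j => (abs_le.1 (h.1 j)).1,
      fun j => (abs_le.1 (h.1 j)).2⟩, ⟨by simp, fun l h => h.2.1, ?_⟩, fun z hz => ?_⟩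
  · rintro l ⟨a1, a2, a3⟩ l' ⟨b1, b2, b3⟩ _ ⟨⟨τ, i⟩, rfl⟩ _ ⟨⟨τ', i'⟩, rfl⟩ e
    have e0 : _ + l 0 = _ + l' 0 := congrFun e 0
    have e1 : _ - _ + l 1 = _ - _ + l' 1 := congrFun e 1
    obtain rfl : τ' = τ := by dsimp only at e1; omega
    obtain ⟨-, a, b⟩ := tbd τ' i
    have := abs_le.1 (a1 1)
    have : (ta τ' i : ℤ) * p ≤ 1 * p := by gcongr <;> omega
    have : (tb τ' i : ℤ) * (p + 1) ≤ 1 * (p + 1) := by gcongr <;> omega
    have : 0 ≤ (ta τ' i : ℤ) * p + tb τ' i * (p + 1) := by positivity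
    obtain rfl : i = i' := (valid (R := l 1 / 4 + (N + p + 1) - (ta τ' i * p + tb τ' i * (p + 1))) hp
      (by omega) (by omega) τ').1 (by
        dsimp only at e1 ⊢
        rw [sub_add_cancel, ← a3, show _ - _ + _ = l' 1 / 4 + (N + p + 1) by omega, ← b3]
        have := congrArg (Int.cast (R := ZMod 6)) e0
        simp only [mk, Fin.val_zero, if_true] at this
        push_cast at this
        linear_combination this)
    exact add_left_cancel e
  · have := abs_le.1 (show |z 1| ≤ N by linarith [hz 1])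
    obtain ⟨i, hi⟩ := (valid (R := z 1 / 4 + (N + p + 1)) hp (by omega) (by omega)
      ⟨(z 1 % 4).natAbs, by omega⟩).2 (z 0 + ss p (N + p + 1))
    refine ⟨z - _, ⟨fun j => ?_, ?_, ?_⟩, _, ⟨(⟨(z 1 % 4).natAbs, by omega⟩, i), rfl⟩, (add_sub_cancel ..).symm⟩
    · exact (abs_sub ..).trans (le_trans (by gcongr; exact hS _ (mem_range_self _) j) (hz j))
    · show (z 1 - (_ - _)) % 4 = 0
      dsimp only; omega
    · show ((z 0 - (tx _ _ : ℕ) : ℤ) : ZMod 6) + _ = ss p ((z 1 - (_ - _)) / 4 + _)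
      dsimp only at hi ⊢
      rw [show _ / 4 + _ = z 1 / 4 + (N + p + 1) + (ta ⟨(z 1 % 4).natAbs, by omega⟩ i * p +
        tb ⟨(z 1 % 4).natAbs, by omega⟩ i * (p + 1)) by omega]
      push_cast
      linear_combination -hi

theorem main (n k : ℕ) : ∃ A : Set (E (n + 2)), IsBody A ∧ (∃ P, P.Finite ∧ Patch A P ∧ A ∈ P ∧
    ∀ j ≤ k, ⋃₀ corona P A j ⊆ interior (⋃₀ corona P A (j + 1))) ∧ ∀ P, Patch A P → ⋃₀ P ≠ univ := by
  obtain ⟨M, hM⟩ : ∃ M, M = 10 * (k + 2) := ⟨_, rfl⟩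
  have hS : ∀ y ∈ YY n (6 * M + 1), ∀ i, |y i| ≤ (48 * M + 17 : ℕ) := by
    rintro _ ⟨⟨τ, i⟩, rfl⟩ j
    obtain ⟨c, a, b⟩ := tbd τ i
    have : (ta τ i : ℤ) * (6 * M + 1) ≤ 1 * (6 * M + 1) := by gcongr; omega
    have : (tb τ i : ℤ) * (6 * M + 1 + 1) ≤ 1 * (6 * M + 1 + 1) := by gcongr; omega
    have : 0 ≤ (ta τ i : ℤ) * (6 * M + 1) + tb τ i * (6 * M + 1 + 1) := by positivity
    simp only [mk, abs_le]
    split_ifs <;> omega
  have hB := body (S := (48 * M + 17 : ℕ)) (fun y h i => by exact_mod_cast hS y h i) (mk0 ▸ YY0 _ 0)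
  obtain ⟨L, a, b, c⟩ := long (N := (k + 1) * (2 * (48 * M + 17) + 4) + 3 + (48 * M + 17))
    (by positivity) hS (by rw [hM]; push_cast; nlinarith [Int.natCast_nonneg k])
  refine ⟨_, hB, surr hS a b fun z hz => c z fun i => by have := hz i; push_cast at *; linarith,
    fun P hP cov => ?_⟩
  obtain ⟨P, p1, p2, p3⟩ := normal hP cov
  obtain ⟨L, l1, l2⟩ := force (finite_range _) hB p1 p2 p3
  exact noL M l1 l2

end Pool.Agent.H.MP_127c5d_co
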